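import Pool.Agent.Helper93.TH3.StD

/-!
# Project TH (levels `2·3^n`), module ITR: iteration of the leading forms
-/

set_option autoImplicit false
set_option maxHeartbeats 1000000

namespace Pool.Agent.Helper60.TH3

open Pool.Agent.Helper93.TH3
open Pool.Agent.Helper14.CV (Homog EqC act Tl StFar StFex)
open Pool.Agent.Helper28.WK (Tw evw)
open Pool.Agent.Helper78.W3 (tr Fn3 Tm opL op3 mulL mulT negL Wd3 dX dY oD oN Lw sS M5 bb3 S3PlA S3Trm S3Low0 S3Nf S3Exp S3Lw1 S3Bb rY3)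
open Pool.Agent.Helper93.TLH (HTy SymH SHHk SHHkS LBH)

section lists

variable {q q' : ℕ}

private theorem opL_nil : (opL [] : Module.End (ZMod 3) (Fn3 q q')) = 0 := rfl

private theorem opL_cons (t : Tm) (L : List Tm) : (opL (t :: L) : Module.End (ZMod 3) (Fn3 q q')) =
    ((t.1 : ℤ) : ZMod 3) • op3 t.2.1 t.2.2.1 t.2.2.2.1 t.2.2.2.2 + opL L := by
  unfold opL
  rw [List.map_cons, List.sum_cons]

private theorem opL_append (L L' : List Tm) :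
    (opL (L ++ L') : Module.End (ZMod 3) (Fn3 q q')) = opL L + opL L' := by
  unfold opL
  rw [List.map_append, List.sum_append]

private theorem opL_scl (n : ℤ) (L : List Tm) :
    (opL (scT n L) : Module.End (ZMod 3) (Fn3 q q')) = ((n : ℤ) : ZMod 3) • opL L := by
  induction L with
  | nil => rw [show scT n [] = [] from rfl, opL_nil, smul_zero]
  | cons t L ih =>
    rw [show scT n (t :: L) = (n * t.1, t.2) :: scT n L from rfl, opL_cons, opL_cons, ih, smul_add, smul_smul]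
    push_cast
    rfl

end lists

private theorem op3_mul (hm : S3Trm) {r s : ℕ} {t t' : Tm} (h : GdT t) (h' : GdT t') :
    (op3 t.2.1 t.2.2.1 t.2.2.2.1 t.2.2.2.2 * op3 t'.2.1 t'.2.2.1 t'.2.2.2.1 t'.2.2.2.2 :
      Module.End (ZMod 3) (Fn3 (3 ^ r) (3 ^ s))) =
    op3 (mulT t t').2.1 (mulT t t').2.2.1 (mulT t t').2.2.2.1 (mulT t t').2.2.2.2 := by
  apply LinearMap.ext
  intro F
  exact (hm (ZMod 3) r s F).1 t.2.1 t.2.2.1 t.2.2.2.1 t.2.2.2.2 t'.2.1 t'.2.2.1 t'.2.2.2.1 t'.2.2.2.2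
    h.1 h.2 h'.1 h'.2

private theorem opL_mulT (hm : S3Trm) {r s : ℕ} {t : Tm} (h : GdT t) (L' : List Tm)
    (h' : ∀ t' ∈ L', GdT t') :
    (opL (L'.map fun t' => mulT t t') : Module.End (ZMod 3) (Fn3 (3 ^ r) (3 ^ s))) =
    (((t.1 : ℤ) : ZMod 3) • op3 t.2.1 t.2.2.1 t.2.2.2.1 t.2.2.2.2) * opL L' := by
  induction L' with
  | nil => rw [List.map_nil, opL_nil, mul_zero]
  | cons a L' ih =>
    rw [List.map_cons, opL_cons, opL_cons, ih (fun t' ht' => h' t' (List.mem_cons_of_mem _ ht')), mul_add,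
      smul_mul_smul_comm, op3_mul hm h (h' a List.mem_cons_self)]
    have e : (((mulT t a).1 : ℤ) : ZMod 3) = ((t.1 : ℤ) : ZMod 3) * ((a.1 : ℤ) : ZMod 3) := by
      unfold mulT
      push_cast
      rfl
    rw [e]

private theorem opL_mul (hm : S3Trm) {r s : ℕ} (L L' : List Tm) (h : ∀ t ∈ L, GdT t)
    (h' : ∀ t' ∈ L', GdT t') :
    (opL (mulL L L') : Module.End (ZMod 3) (Fn3 (3 ^ r) (3 ^ s))) = opL L * opL L' := by
  induction L with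
  | nil => exact (zero_mul _).symm
  | cons a L ih =>
    have e : mulL (a :: L) L' = (L'.map fun t' => mulT a t') ++ mulL L L' := rfl
    rw [e, opL_append, opL_mulT hm (h a List.mem_cons_self) L' h',
      ih (fun t ht => h t (List.mem_cons_of_mem _ ht)), opL_cons, add_mul]

private theorem mm_apply (hm : S3Trm) {r s : ℕ} (A B : Fin 5 → Fin 5 → List Tm)
    (hA : ∀ i f, ∀ t ∈ A i f, GdT t) (hB : ∀ i f, ∀ t ∈ B i f, GdT t)
    (F : Fin 5 → Fn3 (3 ^ r) (3 ^ s)) (i : Fin 5) :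
    ∑ g : Fin 5, opL (A i g) (∑ f : Fin 5, opL (B g f) (F f)) = ∑ f : Fin 5, opL (mmT A B i f) (F f) := by
  have e : ∀ f : Fin 5, opL (mmT A B i f) (F f) = ∑ g : Fin 5, opL (A i g) (opL (B g f) (F f)) := by
    intro f
    simp only [Fin.sum_univ_five, mmT, opL_append, opL_mul hm _ _ (hA _ _) (hB _ _), LinearMap.add_apply,
      Module.End.mul_apply]
  rw [Finset.sum_congr rfl fun f _ => e f, Finset.sum_comm]
  refine Finset.sum_congr rfl fun g _ => ?_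
  rw [map_sum]

private theorem id_apply' (hm : S3Trm) {r s : ℕ} (c : ℤ) (F : Fin 5 → Fn3 (3 ^ r) (3 ^ s)) (i : Fin 5) :
    ∑ f : Fin 5, opL (idT c i f) (F f) = ((c : ℤ) : ZMod 3) • F i := by
  rw [Finset.sum_eq_single i]
  · have h1 : op3 1 0 0 1 (F i) = F i := (hm (ZMod 3) r s (F i)).2.1
    rw [show idT c i i = [(c, 1, 0, 0, 1)] from if_pos rfl, opL_cons, opL_nil, add_zero,
      LinearMap.smul_apply, h1]
  · intro f _ hf
    rw [show idT c i f = [] from if_neg (Ne.symm hf), opL_nil, LinearMap.zero_apply]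
  · intro h
    exact absurd (Finset.mem_univ i) h

section

variable {r s : ℕ}

/-- the five functions -/
private noncomputable def P (r s : ℕ) (G : ℤ → ℤ → ZMod 3) (f : Fin 5) : Fn3 (3 ^ r) (3 ^ s) := pfT G f

private theorem P_add (G H : ℤ → ℤ → ZMod 3) (f : Fin 5) : P r s (G + H) f = P r s G f + P r s H f := by
  funext x y
  simp only [P, pfT, edgeT, Pi.add_apply]
  ring

private theorem P_sub (G H : ℤ → ℤ → ZMod 3) (f : Fin 5) : P r s (G - H) f = P r s G f - P r s H f := by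
  funext x y
  simp only [P, pfT, edgeT, Pi.sub_apply]
  ring

private theorem symT (hb : THkB) (l : ℕ) (hl : l.Prime) (h3 : l ≠ 3) (h2 : l ≠ 2)
    {G : ℤ → ℤ → ZMod 3} (hG : SymH 3 (r + 1) (s + 1) G) :
    SymH 3 (r + 1) (s + 1) (Tl l (3 ^ (r + 1)) G) :=
  (hb (ZMod 3) _ (r + 1) (s + 1) l G hl h3 h2 hG).1

private theorem symSub {G H : ℤ → ℤ → ZMod 3} (hG : SymH 3 (r + 1) (s + 1) G)
    (hH : SymH 3 (r + 1) (s + 1) H) : SymH 3 (r + 1) (s + 1) (G - H) := by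
  rw [sub_eq_add_neg]
  exact SymH.add hG (SymH.neg hH)

private theorem symU (hb : THkB) {G : ℤ → ℤ → ZMod 3} (hG : SymH 3 (r + 1) (s + 1) G) :
    SymH 3 (r + 1) (s + 1) (UoT (3 ^ (r + 1)) G) :=
  SymH.add (symT hb 13 (by norm_num) (by norm_num) (by norm_num) hG) hG

private theorem sym5 (hb : THkB) {G : ℤ → ℤ → ZMod 3} (hG : SymH 3 (r + 1) (s + 1) G) :
    SymH 3 (r + 1) (s + 1) (Tl 5 (3 ^ (r + 1)) G) :=
  symT hb 5 (by norm_num) (by norm_num) (by norm_num) hG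

private theorem symV (hb : THkB) {G : ℤ → ℤ → ZMod 3} (hG : SymH 3 (r + 1) (s + 1) G) :
    SymH 3 (r + 1) (s + 1) (VoT (3 ^ (r + 1)) G) :=
  symSub (symSub (symSub (SymH.add (symT hb 31 (by norm_num) (by norm_num) (by norm_num) hG)
    (sym5 hb (sym5 hb hG))) (symT hb 7 (by norm_num) (by norm_num) (by norm_num) hG))
    (symT hb 13 (by norm_num) (by norm_num) (by norm_num) hG)) hG

private theorem PT {l : ℕ} {T : Fin 5 → Fin 5 → List Tm} (h : THk l T) {G : ℤ → ℤ → ZMod 3}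
    (hG : SymH 3 (r + 1) (s + 1) G) (i : Fin 5) :
    P r s (Tl l (3 ^ (r + 1)) G) i = ∑ f : Fin 5, opL (T i f) (P r s G f) := h r s G hG i

private theorem P55 (hb : THkB) (h5 : THk 5 T5T) (hm : S3Trm) (hg : TCeG) {G : ℤ → ℤ → ZMod 3}
    (hG : SymH 3 (r + 1) (s + 1) G) (i : Fin 5) :
    P r s (Tl 5 (3 ^ (r + 1)) (Tl 5 (3 ^ (r + 1)) G)) i =
      ∑ f : Fin 5, opL (mmT T5T T5T i f) (P r s G f) := by
  have g5 : ∀ i f, ∀ t ∈ T5T i f, GdT t := fun i f => (hg.1 i f).1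
  rw [PT h5 (sym5 hb hG) i, ← mm_apply hm T5T T5T g5 g5 (P r s G) i]
  simp_rw [PT h5 hG]

private theorem PU (h13 : THk 13 T13T) (hm : S3Trm) {G : ℤ → ℤ → ZMod 3}
    (hG : SymH 3 (r + 1) (s + 1) G) (i : Fin 5) :
    P r s (UoT (3 ^ (r + 1)) G) i = ∑ f : Fin 5, opL (ULT i f) (P r s G f) := by
  have e := id_apply' hm 1 (P r s G) i
  have e1 : P r s (UoT (3 ^ (r + 1)) G) i = P r s (Tl 13 (3 ^ (r + 1)) G) i + P r s G i := by
    unfold UoT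
    rw [P_add]
  rw [e1, PT h13 hG i]
  simp only [ULT, opL_append, LinearMap.add_apply, Finset.sum_add_distrib]
  rw [e]
  push_cast
  rw [one_smul]

private theorem PA (h7 : THk 7 T7T) (hm : S3Trm) {G : ℤ → ℤ → ZMod 3}
    (hG : SymH 3 (r + 1) (s + 1) G) (i : Fin 5) :
    P r s (Tl 7 (3 ^ (r + 1)) G + G) i = ∑ f : Fin 5, opL (ALT i f) (P r s G f) := by
  have e := id_apply' hm 1 (P r s G) i
  rw [P_add, PT h7 hG i]
  simp only [ALT, opL_append, LinearMap.add_apply, Finset.sum_add_distrib]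
  rw [e]
  push_cast
  rw [one_smul]

private theorem PV (hb : THkB) (h5 : THk 5 T5T) (h7 : THk 7 T7T) (h13 : THk 13 T13T)
    (h31 : THk 31 T31T) (hm : S3Trm) (hg : TCeG)
    {G : ℤ → ℤ → ZMod 3} (hG : SymH 3 (r + 1) (s + 1) G) (i : Fin 5) :
    P r s (VoT (3 ^ (r + 1)) G) i = ∑ f : Fin 5, opL (VLT i f) (P r s G f) := by
  have e := id_apply' hm (-1) (P r s G) i
  have e1 : P r s (VoT (3 ^ (r + 1)) G) i = P r s (Tl 31 (3 ^ (r + 1)) G) i +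
      P r s (Tl 5 (3 ^ (r + 1)) (Tl 5 (3 ^ (r + 1)) G)) i - P r s (Tl 7 (3 ^ (r + 1)) G) i -
      P r s (Tl 13 (3 ^ (r + 1)) G) i - P r s G i := by
    unfold VoT
    rw [P_sub, P_sub, P_sub, P_add]
  rw [e1, PT h31 hG i, P55 hb h5 hm hg hG i, PT h7 hG i, PT h13 hG i]
  simp only [VLT, opL_append, opL_scl, LinearMap.add_apply, LinearMap.smul_apply, Finset.sum_add_distrib,
    ← Finset.smul_sum]
  rw [e]
  push_cast
  simp only [neg_smul, one_smul]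
  abel

private theorem lw_pow (hl : S3Low0) {O : Module.End (ZMod 3) (Fn3 (3 ^ r) (3 ^ s))} {k : ℤ}
    (hO : Lw O k) (n : ℕ) : Lw (O ^ n) (k * n) := by
  obtain ⟨hm, -, -, -, -, h1, -⟩ := hl r s
  induction n with
  | zero => simpa using h1
  | succ n ih =>
    rw [pow_succ]
    have := hm _ _ _ _ ih hO
    rwa [show k * n + k = k * (n + 1 : ℕ) by push_cast; ring] at this

private theorem lw_Qo (hl : S3Low0) : Lw (QoT : Module.End (ZMod 3) (Fn3 (3 ^ r) (3 ^ s))) 2 := by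
  obtain ⟨hm, -, -, -, -, -, hx, hy, -⟩ := hl r s
  have h1 := hm _ _ _ _ hx hy
  norm_num at h1
  exact h1

private theorem lw_Lo (hl : S3Low0) : Lw (LoT : Module.End (ZMod 3) (Fn3 (3 ^ r) (3 ^ s))) 4 := by
  obtain ⟨hm, ha, hc, -, -, -, hx, hy, -⟩ := hl r s
  have x2 := lw_pow hl hx 2
  have x3 := lw_pow hl hx 3
  have y2 := lw_pow hl hy 2
  have y3 := lw_pow hl hy 3
  have a1 := hm _ _ _ _ x3 hy
  have a2 := hm _ _ _ _ x2 y2
  have a3 := hm _ _ _ _ hx y3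
  norm_num at a1 a2 a3
  exact ha _ _ _ (ha _ _ _ a1 a2) a3

private theorem stepL (hl : S3Low0) {O : Module.End (ZMod 3) (Fn3 (3 ^ r) (3 ^ s))} {k e : ℤ} (hO : Lw O k)
    {F H F' : Fn3 (3 ^ r) (3 ^ s)} (hH : F - H ∈ Wd3 (e - 1)) (hF' : F' - O F ∈ Wd3 (e - k - 1)) :
    F' - O H ∈ Wd3 (e - k - 1) := by
  have h2 : O (F - H) ∈ Wd3 (e - k - 1) := by
    have := hO (e - 1) _ hH
    rwa [show e - 1 - k = e - k - 1 by ring] at this
  have h3 := Submodule.add_mem _ hF' h2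
  rwa [map_sub, sub_add_sub_cancel] at h3

private theorem stepM (hl : S3Low0) {O : Module.End (ZMod 3) (Fn3 (3 ^ r) (3 ^ s))} {k e : ℤ} (hO : Lw O k)
    {F F' : Fn3 (3 ^ r) (3 ^ s)} (hF : F ∈ Wd3 e) (hF' : F' - O F ∈ Wd3 (e - k - 1)) :
    F' ∈ Wd3 (e - k) := by
  have hmono := (hl r s).2.2.2.2.1
  have h1 : O F ∈ Wd3 (e - k) := hO e F hF
  have h3 := Submodule.add_mem _ (hmono _ _ (by linarith) hF') h1
  rwa [sub_add_cancel] at h3

/-- the state -/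
private def St (r s : ℕ) (e : ℤ) (G : ℤ → ℤ → ZMod 3) (h : Fn3 (3 ^ r) (3 ^ s)) : Prop :=
  SymH 3 (r + 1) (s + 1) G ∧ (∀ f : Fin 5, P r s G f ∈ Wd3 e) ∧ P r s G 0 - h ∈ Wd3 (e - 1)

private theorem stU (hr : TRel) (hb : THkB) (h13 : THk 13 T13T) (hm : S3Trm) (hl : S3Low0) (hu : TLdU)
    {e : ℤ} {G : ℤ → ℤ → ZMod 3} {h : Fn3 (3 ^ r) (3 ^ s)} (hS : St r s e G h) :
    St r s (e - 2) (UoT (3 ^ (r + 1)) G) (QoT h) := by
  obtain ⟨hG, hF, h0⟩ := hS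
  have hR : RelT (P r s G) := hr (ZMod 3) _ r s G hG
  have key : ∀ i : Fin 5, P r s (UoT (3 ^ (r + 1)) G) i - QoT (P r s G i) ∈ Wd3 (e - 2 - 1) := by
    intro i
    have l1 := hu r s e (P r s G) hR hF i
    rwa [← PU h13 hm hG i, show e - 3 = e - 2 - 1 by ring] at l1
  exact ⟨symU hb hG, fun f => stepM hl (lw_Qo hl) (hF f) (key f), stepL hl (lw_Qo hl) h0 (key 0)⟩

private theorem stV (hr : TRel) (hb : THkB) (h5 : THk 5 T5T) (h7 : THk 7 T7T) (h13 : THk 13 T13T)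
    (h31 : THk 31 T31T) (hm : S3Trm) (hl : S3Low0) (hg : TCeG) (hv : TLdV)
    {e : ℤ} {G : ℤ → ℤ → ZMod 3} {h : Fn3 (3 ^ r) (3 ^ s)} (hS : St r s e G h) :
    St r s (e - 4) (VoT (3 ^ (r + 1)) G) (LoT h) := by
  obtain ⟨hG, hF, h0⟩ := hS
  have hR : RelT (P r s G) := hr (ZMod 3) _ r s G hG
  have key : ∀ i : Fin 5, P r s (VoT (3 ^ (r + 1)) G) i - LoT (P r s G i) ∈ Wd3 (e - 4 - 1) := by
    intro i
    have l1 := hv r s e (P r s G) hR hF i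
    rwa [← PV hb h5 h7 h13 h31 hm hg hG i, show e - 5 = e - 4 - 1 by ring] at l1
  exact ⟨symV hb hG, fun f => stepM hl (lw_Lo hl) (hF f) (key f), stepL hl (lw_Lo hl) h0 (key 0)⟩

private theorem itU (hr : TRel) (hb : THkB) (h13 : THk 13 T13T) (hm : S3Trm) (hl : S3Low0) (hu : TLdU)
    {e : ℤ} {G : ℤ → ℤ → ZMod 3} {h : Fn3 (3 ^ r) (3 ^ s)} (hS : St r s e G h) (i : ℕ) :
    St r s (e - 2 * i) ((UoT (3 ^ (r + 1)))^[i] G)
      ((QoT ^ i : Module.End (ZMod 3) (Fn3 (3 ^ r) (3 ^ s))) h) := by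
  induction i with
  | zero => simpa using hS
  | succ i ih =>
    have h4 := stU hr hb h13 hm hl hu ih
    have hp : (QoT ^ (i + 1) : Module.End (ZMod 3) (Fn3 (3 ^ r) (3 ^ s))) = QoT * QoT ^ i := pow_succ' _ _
    have e2 : e - 2 * ((i + 1 : ℕ) : ℤ) = e - 2 * i - 2 := by push_cast; ring
    rw [Function.iterate_succ_apply', hp, e2]
    exact h4

private theorem itV (hr : TRel) (hb : THkB) (h5 : THk 5 T5T) (h7 : THk 7 T7T) (h13 : THk 13 T13T)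
    (h31 : THk 31 T31T) (hm : S3Trm) (hl : S3Low0) (hg : TCeG) (hv : TLdV)
    {e : ℤ} {G : ℤ → ℤ → ZMod 3} {h : Fn3 (3 ^ r) (3 ^ s)} (hS : St r s e G h) (j : ℕ) :
    St r s (e - 4 * j) ((VoT (3 ^ (r + 1)))^[j] G)
      ((LoT ^ j : Module.End (ZMod 3) (Fn3 (3 ^ r) (3 ^ s))) h) := by
  induction j with
  | zero => simpa using hS
  | succ j ih =>
    have h4 := stV hr hb h5 h7 h13 h31 hm hl hg hv ih
    have hp : (LoT ^ (j + 1) : Module.End (ZMod 3) (Fn3 (3 ^ r) (3 ^ s))) = LoT * LoT ^ j := pow_succ' _ _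
    have e2 : e - 4 * ((j + 1 : ℕ) : ℤ) = e - 4 * j - 4 := by push_cast; ring
    rw [Function.iterate_succ_apply', hp, e2]
    exact h4

private theorem P_zero (G : ℤ → ℤ → ZMod 3) : P r s G 0 0 0 = G 1 0 - G 0 1 := by
  have hY : rY3 1 (0 : ZMod (3 ^ r)) (0 : ZMod (3 ^ s)) = 0 := by
    unfold rY3
    simp
  have hy : yT (0 : ZMod (3 ^ r)) (0 : ZMod (3 ^ s)) = 0 := by
    unfold yT
    rw [hY, if_pos (dvd_zero _)]
  have hX : (((0 : ZMod (3 ^ r)).val : ℕ) : ℤ) = 0 := by simp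
  unfold P pfT edgeT
  rw [hy, hX]
  simp [bsT]

/-- the evaluation -/
private theorem fin_ev (hr : TRel) (hb : THkB) (h5 : THk 5 T5T) (h7 : THk 7 T7T) (h13 : THk 13 T13T)
    (h31 : THk 31 T31T) (hm : S3Trm) (hl : S3Low0) (hg : TCeG) (hu : TLdU) (hv : TLdV)
    {e : ℤ} {G : ℤ → ℤ → ZMod 3} {h : Fn3 (3 ^ r) (3 ^ s)} (hS : St r s e G h) (i j : ℕ) :
    (e < 2 * i + 4 * j → ((UoT (3 ^ (r + 1)))^[i] ((VoT (3 ^ (r + 1)))^[j] G)) 1 0 -
      ((UoT (3 ^ (r + 1)))^[i] ((VoT (3 ^ (r + 1)))^[j] G)) 0 1 = 0) ∧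
    (e = 2 * i + 4 * j → ((UoT (3 ^ (r + 1)))^[i] ((VoT (3 ^ (r + 1)))^[j] G)) 1 0 -
      ((UoT (3 ^ (r + 1)))^[i] ((VoT (3 ^ (r + 1)))^[j] G)) 0 1 =
      ((QoT ^ i : Module.End (ZMod 3) (Fn3 (3 ^ r) (3 ^ s)))
        ((LoT ^ j : Module.End (ZMod 3) (Fn3 (3 ^ r) (3 ^ s))) h)) 0 0) := by
  have hmono := (hl r s).2.2.2.2.1
  have hz : ∀ F : Fn3 (3 ^ r) (3 ^ s), F ∈ Wd3 (-1) → F = 0 := (hl r s).2.2.2.2.2.2.2.2.2.2.2.2.2
  obtain ⟨kG, kF, k0⟩ := itU hr hb h13 hm hl hu (itV hr hb h5 h7 h13 h31 hm hl hg hv hS j) i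
  rw [← P_zero (r := r) (s := s)]
  refine ⟨fun hlt => ?_, fun heq => ?_⟩
  · rw [hz _ (hmono _ (-1) (by linarith) (kF 0))]
    rfl
  · rw [sub_eq_zero.1 (hz _ (hmono _ (-1) (by linarith) k0))]

end

/-- **ITR.** -/
theorem hItr (hr : TRel) (hb : THkB) (h5 : THk 5 T5T) (h7 : THk 7 T7T) (h13 : THk 13 T13T)
    (h31 : THk 31 T31T) (hm : S3Trm) (hl : S3Low0) (hg : TCeG) (hu : TLdU) (hv : TLdV) (ha : TLdA)
    (h5' : TLd5) : TItr := by
  intro r s G d hG hF i j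
  have hF' : ∀ f, P r s G f ∈ Wd3 (d : ℤ) := hF
  have hR : RelT (P r s G) := hr (ZMod 3) _ r s G hG
  have triv : ∀ (e : ℤ) (K : ℤ → ℤ → ZMod 3), SymH 3 (r + 1) (s + 1) K → (∀ f, P r s K f ∈ Wd3 e) →
      St r s e K (P r s K 0) := by
    intro e K hK hKF
    refine ⟨hK, hKF, ?_⟩
    rw [sub_self]
    exact Submodule.zero_mem _
  have st2 := triv _ G hG hF'
  -- c = 1
  have G1 := sym5 hb hG
  have F1 : ∀ f, P r s (Tl 5 (3 ^ (r + 1)) G) f ∈ Wd3 ((d : ℤ) - 1) := by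
    intro f
    rw [PT h5 hG f]
    exact (h5' r s d (P r s G) hR hF').1 f
  have st1 := triv _ _ G1 F1
  -- c = 0
  have G0 : SymH 3 (r + 1) (s + 1) (Tl 7 (3 ^ (r + 1)) G + G) :=
    SymH.add (symT hb 7 (by norm_num) (by norm_num) (by norm_num) hG) hG
  have F0 : ∀ f, P r s (Tl 7 (3 ^ (r + 1)) G + G) f ∈ Wd3 ((d : ℤ) - 2) := by
    intro f
    rw [PA h7 hm hG f]
    exact (ha r s d (P r s G) hR hF').1 f
  have st0 := triv _ _ G0 F0
  have ev2 : evT (3 ^ (r + 1)) G 2 i j = ((UoT (3 ^ (r + 1)))^[i] ((VoT (3 ^ (r + 1)))^[j] G)) 1 0 -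
      ((UoT (3 ^ (r + 1)))^[i] ((VoT (3 ^ (r + 1)))^[j] G)) 0 1 := rfl
  have ev1 : evT (3 ^ (r + 1)) G 1 i j =
      ((UoT (3 ^ (r + 1)))^[i] ((VoT (3 ^ (r + 1)))^[j] (Tl 5 (3 ^ (r + 1)) G))) 1 0 -
      ((UoT (3 ^ (r + 1)))^[i] ((VoT (3 ^ (r + 1)))^[j] (Tl 5 (3 ^ (r + 1)) G))) 0 1 := rfl
  have ev0 : evT (3 ^ (r + 1)) G 0 i j =
      ((UoT (3 ^ (r + 1)))^[i] ((VoT (3 ^ (r + 1)))^[j] (Tl 7 (3 ^ (r + 1)) G + G))) 1 0 -
      ((UoT (3 ^ (r + 1)))^[i] ((VoT (3 ^ (r + 1)))^[j] (Tl 7 (3 ^ (r + 1)) G + G))) 0 1 := rfl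
  refine ⟨fun hlt => ?_, fun heq => ?_, fun hlt => ?_, fun heq => ?_, fun hlt => ?_, fun heq => ?_⟩
  · have h' : (d : ℤ) < 2 * i + 4 * j := by exact_mod_cast hlt
    rw [ev2]
    exact (fin_ev hr hb h5 h7 h13 h31 hm hl hg hu hv st2 i j).1 h'
  · have h' : (2 * i + 4 * j : ℤ) = d := by exact_mod_cast heq
    rw [ev2]
    exact (fin_ev hr hb h5 h7 h13 h31 hm hl hg hu hv st2 i j).2 h'.symm
  · have h' : (d : ℤ) < 2 * i + 4 * j + 1 := by exact_mod_cast hlt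
    rw [ev1]
    exact (fin_ev hr hb h5 h7 h13 h31 hm hl hg hu hv st1 i j).1 (by linarith)
  · have h' : (2 * i + 4 * j + 1 : ℤ) = d := by exact_mod_cast heq
    have hodd : Odd (d : ℤ) := ⟨i + 2 * j, by linarith⟩
    have hlead := (h5' r s d (P r s G) hR hF').2 hodd
    rw [← PT h5 hG 0, show (d : ℤ) - 2 = (d : ℤ) - 1 - 1 by ring] at hlead
    rw [ev1]
    exact (fin_ev hr hb h5 h7 h13 h31 hm hl hg hu hv ⟨G1, F1, hlead⟩ i j).2 (by linarith)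
  · have h' : (d : ℤ) < 2 * i + 4 * j + 2 := by exact_mod_cast hlt
    rw [ev0]
    exact (fin_ev hr hb h5 h7 h13 h31 hm hl hg hu hv st0 i j).1 (by linarith)
  · have h' : (2 * i + 4 * j + 2 : ℤ) = d := by exact_mod_cast heq
    have heven : Even (d : ℤ) := ⟨i + 2 * j + 1, by linarith⟩
    have hlead := (ha r s d (P r s G) hR hF').2 heven
    rw [← PA h7 hm hG 0, show (d : ℤ) - 3 = (d : ℤ) - 2 - 1 by ring] at hlead
    have hlead' : P r s (Tl 7 (3 ^ (r + 1)) G + G) 0 -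
        ((dX ^ 2 - dY ^ 2 : Module.End (ZMod 3) (Fn3 (3 ^ r) (3 ^ s))) (P r s G 1 + P r s G 2) -
          (dY ^ 2 : Module.End (ZMod 3) (Fn3 (3 ^ r) (3 ^ s))) (P r s G 0)) ∈ Wd3 ((d : ℤ) - 2 - 1) := by
      have e : P r s (Tl 7 (3 ^ (r + 1)) G + G) 0 -
        ((dX ^ 2 - dY ^ 2 : Module.End (ZMod 3) (Fn3 (3 ^ r) (3 ^ s))) (P r s G 1 + P r s G 2) -
          (dY ^ 2 : Module.End (ZMod 3) (Fn3 (3 ^ r) (3 ^ s))) (P r s G 0)) =
        P r s (Tl 7 (3 ^ (r + 1)) G + G) 0 +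
          (dY ^ 2 : Module.End (ZMod 3) (Fn3 (3 ^ r) (3 ^ s))) (P r s G 0) -
        (dX ^ 2 - dY ^ 2 : Module.End (ZMod 3) (Fn3 (3 ^ r) (3 ^ s))) (P r s G 1 + P r s G 2) := by abel
      rw [e]
      exact hlead
    rw [ev0, (fin_ev hr hb h5 h7 h13 h31 hm hl hg hu hv ⟨G0, F0, hlead'⟩ i j).2 (by linarith),
      map_sub, map_sub]
    rfl

end Pool.Agent.Helper60.TH3
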